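import Pool.Agent.Lib.MP_1a0a6e_lc.Lof2

/-!
# MP_1a0a6e_lc: limits of continuous maps which take few values at the low extensions of one real, or generically above one real, are constant on a cone

`f` is a map that, above one real `z₀`, sends Turing equivalent reals to eventually equal reals, `q` is a map that
changes no Turing degree above `z₀`, and `f ∘ q` is on the cone of `z₀` the pointwise limit of continuous maps. There is
a real `k` such that for all `w` above `k` and all sequences of reals `C i`: if `f` is eventually equal to some `C i` at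
the join of `w` and `g` for a set of reals `g` which is not meagre, or for all `g` such that the join of `w` and `g` is
low over `w` (every real limit computable from the join is limit computable from `w`), where in the second case there
are only finitely many different `C i` or the `C i` are uniformly limit computable from `w`, then there is some `i` such
that `f` is eventually equal to `C i` at all reals above `w` and `C i`.
-/

set_option autoImplicit false

namespace Pool.Agent.Results.MP_1a0a6e_lc.BaireClassOne

open Pool.Agent.Lib.MP_1a0a6e_lc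

theorem result (f : (ℕ → Bool) → (ℕ → Bool)) (z₀ : ℕ → Bool)
    (hf : ∀ x y : ℕ → Bool,
      TuringReducible (fun n => Part.some (z₀ n).toNat) (fun n => Part.some (x n).toNat) →
      TuringEquivalent (fun n => Part.some (x n).toNat) (fun n => Part.some (y n).toNat) →
      ∃ N : ℕ, ∀ n ≥ N, f x n = f y n)
    (q : (ℕ → Bool) → (ℕ → Bool))
    (hq : ∀ u : ℕ → Bool,
      TuringReducible (fun n => Part.some (z₀ n).toNat) (fun n => Part.some (u n).toNat) →
      TuringEquivalent (fun n => Part.some (q u n).toNat) (fun n => Part.some (u n).toNat))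
    (F : ℕ → (ℕ → Bool) → (ℕ → Bool)) (hF : ∀ s : ℕ, Continuous (F s))
    (hlim : ∀ x : ℕ → Bool,
      TuringReducible (fun n => Part.some (z₀ n).toNat) (fun n => Part.some (x n).toNat) →
      Filter.Tendsto (fun s => F s x) Filter.atTop (nhds (f (q x)))) :
    ∃ k : ℕ → Bool, ∀ (w : ℕ → Bool) (C : ℕ → ℕ → Bool),
      TuringReducible (fun n => Part.some (k n).toNat) (fun n => Part.some (w n).toNat) →
      (¬ IsMeagre {g : ℕ → Bool | ∃ i N : ℕ, ∀ n ≥ N,
          f (fun m => if m % 2 = 0 then w (m / 2) else g (m / 2)) n = C i n} ∨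
        (((Set.range C).Finite ∨
            ∃ h : ℕ → Bool, TuringReducible (fun n => Part.some (h n).toNat) (fun n => Part.some (w n).toNat) ∧
              ∀ i n, ∃ s₀, ∀ s ≥ s₀, h (Nat.pair (Nat.pair i n) s) = C i n) ∧
          ∀ g : ℕ → Bool,
            (∀ v : ℕ → Bool,
              (∃ h : ℕ → Bool, TuringReducible (fun n => Part.some (h n).toNat)
                  (fun n => Part.some (if n % 2 = 0 then w (n / 2) else g (n / 2)).toNat) ∧
                ∀ n, ∃ s₀, ∀ s ≥ s₀, h (Nat.pair n s) = v n) →
              ∃ h : ℕ → Bool, TuringReducible (fun n => Part.some (h n).toNat) (fun n => Part.some (w n).toNat) ∧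
                ∀ n, ∃ s₀, ∀ s ≥ s₀, h (Nat.pair n s) = v n) →
            ∃ i N : ℕ, ∀ n ≥ N, f (fun m => if m % 2 = 0 then w (m / 2) else g (m / 2)) n = C i n)) →
      ∃ i : ℕ, ∀ y : ℕ → Bool,
        TuringReducible (fun n => Part.some (w n).toNat) (fun n => Part.some (y n).toNat) →
        TuringReducible (fun n => Part.some (C i n).toNat) (fun n => Part.some (y n).toNat) →
        ∃ N : ℕ, ∀ n ≥ N, f y n = C i n := by
  obtain ⟨k, h⟩ := lof_main F (fun s n => (continuous_apply n).comp (hF s)) f z₀ q
    (fun u hu => ⟨(red_iff u (q u)).1 (hq u ((red_iff u z₀).2 hu)).1, (red_iff (q u) u).1 (hq u ((red_iff u z₀).2 hu)).2⟩)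
    (fun x hx n => by
      have h1 := tendsto_pi_nhds.1 (hlim x ((red_iff x z₀).2 hx)) n
      rw [nhds_discrete, Filter.tendsto_pure] at h1
      exact Filter.eventually_atTop.1 h1)
    (fun x y h0 h1 h2 => hf x y ((red_iff x z₀).2 h0) ⟨(red_iff y x).2 h1, (red_iff x y).2 h2⟩)
  refine ⟨k, fun w C hk hor => ?_⟩
  obtain ⟨i, hi⟩ := h w C ((red_iff w k).1 hk) (by
    rcases hor with hor | ⟨hC, hor⟩
    · exact Or.inl hor
    · refine Or.inr ⟨?_, fun g hg => hor g fun v hv => ?_⟩
      · rcases hC with hC | ⟨h1, h2, h3⟩
        · exact Or.inl hC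
        · exact Or.inr ⟨h1, (red_iff w h1).1 h2, h3⟩
      · obtain ⟨h1, h2, h3⟩ := hv
        obtain ⟨h4, h5, h6⟩ := hg v ⟨h1, (red_iff (jn w g) h1).1 h2, h3⟩
        exact ⟨h4, (red_iff w h4).2 h5, h6⟩)
  exact ⟨i, fun y hw hc => hi y ((red_iff y w).1 hw) ((red_iff y (C i)).1 hc)⟩

end Pool.Agent.Results.MP_1a0a6e_lc.BaireClassOne
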