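import Pool.Agent.Lib.MP_1a0a6e_lc.Main

/-!
# MP_1a0a6e_lc: homomorphisms from Turing equivalence to eventual equality that are continuous modulo finite at sufficiently many points

`f` is any map (no measurability is assumed) that, above one real `z₀`, sends Turing equivalent reals to eventually
equal sequences of points of a Hausdorff space, and `q` any map that changes no Turing degree above `z₀`. If above
every real there is some `u` such that all but finitely many coordinates of `f ∘ q` are continuous at `u`, and also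
at every join of `u` with another real, then `f` is eventually equal to one fixed sequence on a cone.
-/

set_option autoImplicit false

namespace Pool.Agent.Results.MP_1a0a6e_lc.ContinuousHomomorphisms

open Pool.Agent.Lib.MP_1a0a6e_lc

theorem result (X : Type) [TopologicalSpace X] [T2Space X] (f : (ℕ → Bool) → ℕ → X) (z₀ : ℕ → Bool)
    (hf : ∀ x y : ℕ → Bool,
      TuringReducible (fun n => Part.some (z₀ n).toNat) (fun n => Part.some (x n).toNat) →
      TuringEquivalent (fun n => Part.some (x n).toNat) (fun n => Part.some (y n).toNat) →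
      ∃ N : ℕ, ∀ n ≥ N, f x n = f y n)
    (q : (ℕ → Bool) → (ℕ → Bool))
    (hq : ∀ u : ℕ → Bool,
      TuringReducible (fun n => Part.some (z₀ n).toNat) (fun n => Part.some (u n).toNat) →
      TuringEquivalent (fun n => Part.some (q u n).toNat) (fun n => Part.some (u n).toNat))
    (hc : ∀ z : ℕ → Bool, ∃ u : ℕ → Bool,
      TuringReducible (fun n => Part.some (z n).toNat) (fun n => Part.some (u n).toNat) ∧
      (∃ N : ℕ, ∀ n ≥ N, ContinuousAt (fun w => f (q w) n) u) ∧
      ∀ v : ℕ → Bool, ∃ N : ℕ, ∀ n ≥ N,
        ContinuousAt (fun w => f (q w) n) (fun n => if n % 2 = 0 then u (n / 2) else v (n / 2))) :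
    ∃ z : ℕ → Bool, ∃ c : ℕ → X, ∀ x : ℕ → Bool,
      TuringReducible (fun n => Part.some (z n).toNat) (fun n => Part.some (x n).toNat) →
      ∃ N : ℕ, ∀ n ≥ N, f x n = c n := by
  obtain ⟨z, c, h⟩ := main_sel f z₀
    (fun x y h0 h1 h2 => hf x y ((red_iff x z₀).2 h0) ⟨(red_iff y x).2 h1, (red_iff x y).2 h2⟩) q
    (fun u hu => ⟨(red_iff u (q u)).1 (hq u ((red_iff u z₀).2 hu)).1, (red_iff (q u) u).1 (hq u ((red_iff u z₀).2 hu)).2⟩)
    (fun z => by
      obtain ⟨u, h1, h2, h3⟩ := hc z
      exact ⟨u, (red_iff u z).1 h1, h2, h3⟩)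
  exact ⟨z, c, fun x hx => h x ((red_iff x z).1 hx)⟩

end Pool.Agent.Results.MP_1a0a6e_lc.ContinuousHomomorphisms
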