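import Pool.Agent.Lib.MP_1a0a6e_lc.Acs

/-!
# MP_1a0a6e_lc: for every Borel homomorphism from Turing equivalence to `E_0` and every access structure, each real of a cone is shared among reals such that all unqualified joins lie in one fibre

`f` is a Borel map that, above one real `z₀`, sends Turing equivalent reals to eventually equal reals. The join of the
members `X i`, `i ∈ S`, of a family `X 0, X 1, ...` of reals is the real whose bit number `m = ⟨i, n⟩` (Mathlib's
pairing) is `X i n` if `i ∈ S`, and `false` otherwise; a set `S` is given by its characteristic function. A sequence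
`Q` of finite sets is given; `S` is qualified if `S = ℕ` or `S` contains some nonempty `Q a`. There is a real `c` such
that for every `Q` there is a real `k` for which every `z` above `k` has a family of reals above `z₀` such that, for
every nonempty `S ≤_T z₀`, the join over `S` is Turing equivalent to `z` if `S` is qualified, and `f` is eventually
equal to `c` at it if `S` is not qualified. So if the value `c` of `f` modulo eventual equality cannot change when one
passes from the unqualified joins of such families to the whole join, then all images on the cone of `k` are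
eventually equal to `c`.
-/

set_option autoImplicit false

namespace Pool.Agent.Results.MP_1a0a6e_lc.InfiniteJoins

open Pool.Agent.Lib.MP_1a0a6e_lc

theorem result (f : (ℕ → Bool) → (ℕ → Bool)) (hf : Measurable f) (z₀ : ℕ → Bool)
    (hom : ∀ x y : ℕ → Bool,
      TuringReducible (fun n => Part.some (z₀ n).toNat) (fun n => Part.some (x n).toNat) →
      TuringEquivalent (fun n => Part.some (x n).toNat) (fun n => Part.some (y n).toNat) →
      ∃ N : ℕ, ∀ n ≥ N, f x n = f y n) :
    ∃ c : ℕ → Bool, ∀ Q : ℕ → Finset ℕ, ∃ k : ℕ → Bool,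
      (∀ z : ℕ → Bool, TuringReducible (fun n => Part.some (k n).toNat) (fun n => Part.some (z n).toNat) →
        ∃ X : ℕ → ℕ → Bool,
          (∀ i : ℕ, TuringReducible (fun n => Part.some (z₀ n).toNat) (fun n => Part.some (X i n).toNat)) ∧
          ∀ S : ℕ → Bool, TuringReducible (fun n => Part.some (S n).toNat) (fun n => Part.some (z₀ n).toNat) →
            (∃ i, S i = true) →
            (((∀ i, S i = true) ∨ ∃ a, (Q a).Nonempty ∧ ∀ i ∈ Q a, S i = true) →
              TuringEquivalent
                (fun m => Part.some (if S m.unpair.1 = true then X m.unpair.1 m.unpair.2 else false).toNat)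
                (fun n => Part.some (z n).toNat)) ∧
            (¬ ((∀ i, S i = true) ∨ ∃ a, (Q a).Nonempty ∧ ∀ i ∈ Q a, S i = true) →
              ∃ N : ℕ, ∀ n ≥ N, f (fun m => if S m.unpair.1 = true then X m.unpair.1 m.unpair.2 else false) n = c n)) ∧
      ((∀ X : ℕ → ℕ → Bool,
          (∀ i : ℕ, TuringReducible (fun n => Part.some (z₀ n).toNat) (fun n => Part.some (X i n).toNat)) →
          (∀ S : ℕ → Bool, TuringReducible (fun n => Part.some (S n).toNat) (fun n => Part.some (z₀ n).toNat) →
            (∃ i, S i = true) →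
            (((∀ i, S i = true) ∨ ∃ a, (Q a).Nonempty ∧ ∀ i ∈ Q a, S i = true) →
              TuringEquivalent
                (fun m => Part.some (if S m.unpair.1 = true then X m.unpair.1 m.unpair.2 else false).toNat)
                (fun m => Part.some (X m.unpair.1 m.unpair.2).toNat)) ∧
            (¬ ((∀ i, S i = true) ∨ ∃ a, (Q a).Nonempty ∧ ∀ i ∈ Q a, S i = true) →
              ∃ N : ℕ, ∀ n ≥ N, f (fun m => if S m.unpair.1 = true then X m.unpair.1 m.unpair.2 else false) n = c n)) →
          ∃ N : ℕ, ∀ n ≥ N, f (fun m => X m.unpair.1 m.unpair.2) n = c n) →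
        ∀ z : ℕ → Bool, TuringReducible (fun n => Part.some (k n).toNat) (fun n => Part.some (z n).toNat) →
          ∃ N : ℕ, ∀ n ≥ N, f z n = c n) := by
  have hom' : ∀ x y, Rd z₀ x → Rd x y → Rd y x → Ev (f x) (f y) := fun x y h0 h1 h2 =>
    hom x y ((red_iff x z₀).2 h0) ⟨(red_iff y x).2 h1, (red_iff x y).2 h2⟩
  have hfull : ∀ X : ℕ → ℕ → Bool, Ji al X = fun m => X m.unpair.1 m.unpair.2 := fun X => funext fun m => if_pos rfl
  have hal : Rd al z₀ := Cp.of_prim (Primrec.const 1)
  obtain ⟨c, hc⟩ := main_acs f hf z₀ hom'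
  refine ⟨c, fun Q => ?_⟩
  obtain ⟨k, hk0, h⟩ := hc Q
  refine ⟨k, fun z hz => ?_, fun hcl z hz => ?_⟩
  · obtain ⟨X, h1, h2, h3⟩ := h z ((red_iff z k).1 hz)
    refine ⟨X, fun i => (red_iff (X i) z₀).2 (h1 i), fun S hS hne => ⟨fun hq => ?_, fun hq => ?_⟩⟩
    · obtain ⟨h4, h5⟩ := h3 S ((red_iff z₀ S).1 hS) hq
      exact ⟨(red_iff z (Ji S X)).2 h4, (red_iff (Ji S X) z).2 h5⟩
    · exact h2 S ((red_iff z₀ S).1 hS) hne hq
  · obtain ⟨X, h1, h2, h3⟩ := h z ((red_iff z k).1 hz)
    obtain ⟨h4, h5⟩ := h3 al hal (Or.inl fun _ => rfl)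
    have h6 := hcl X (fun i => (red_iff (X i) z₀).2 (h1 i)) fun S hS hne => ⟨fun hq => by
      obtain ⟨h7, h8⟩ := h3 S ((red_iff z₀ S).1 hS) hq
      rw [hfull] at h4 h5
      exact ⟨(red_iff _ (Ji S X)).2 (h7.trans h5), (red_iff (Ji S X) _).2 (h4.trans h8)⟩,
      fun hq => h2 S ((red_iff z₀ S).1 hS) hne hq⟩
    have h7 := hom' z (Ji al X) (hk0.trans ((red_iff z k).1 hz)) h5 h4
    rw [hfull] at h7
    exact h7.trans h6

end Pool.Agent.Results.MP_1a0a6e_lc.InfiniteJoins
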